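import Pool.Agent.H194Z.AccumNeg

set_option autoImplicit false

namespace Pool.Agent.Results.MP_8b2777_lc.BNotPrimePower

open Pool.Agent.H194Z.Adic

/-- For every `N ≥ 2` that is not a prime power (for instance `N = 6`), assertion (a) fails: some
sequence that is not eventually periodic has `T(a)` not of the form `[B, 1 - B]`. -/
theorem result (N : ℕ) (hN : 2 ≤ N) (h : ¬ IsPrimePow N) :
    ∃ a : ℕ → Fin N, ¬ EventuallyPeriodic a ∧ ∀ B : ℝ, accum N a ≠ Set.Icc B (1 - B) :=
  neg_main hN h

end Pool.Agent.Results.MP_8b2777_lc.BNotPrimePower
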